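import Pool.Agent.Q44.SA.Stm

/-!
# Project SA (helper44), statement `S_dH`

Heights of the neighbours in the chain of a determinantal quartic surface.
-/

set_option autoImplicit false

namespace Pool.Agent.Q195.SA.DH

open MvPolynomial Height Pool.Agent.Q44.SA

theorem main (h1 : S_adj) (h2 : S_dN) : S_dH := by
  intro K _ _ A hA
  obtain ⟨M, q, hq, hid⟩ := h2 K A hA
  obtain ⟨C, hC⟩ := logHeight_eval_ge' (K := K) (ι := Fin 4) (ι' := Fin 4 × Fin 4) (M := M) (N := 3)
    (q := q) hq
  refine ⟨-C, ?_⟩
  intro v w u hvw hwu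
  obtain ⟨hv, hw, hvw⟩ := hvw
  obtain ⟨-, hu, hwu⟩ := hwu
  -- the matrix
  have hM1 : Matrix.vecMul u (A.mat w) = 0 := by
    funext c
    have h := hwu c
    rw [Finset.sum_comm] at h
    rw [Matrix.vecMul, dotProduct, Pi.zero_apply, ← h]
    refine Finset.sum_congr rfl fun b _ => ?_
    simp only [Ten.mat, Matrix.of_apply]
    rw [Finset.mul_sum]
    exact Finset.sum_congr rfl fun a _ => by ring
  have hM2 : (A.mat w).mulVec v = 0 := by
    funext c
    have h := hvw c
    rw [Matrix.mulVec, dotProduct, Pi.zero_apply, ← h]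
    refine Finset.sum_congr rfl fun b _ => ?_
    simp only [Ten.mat, Ten.rot, Matrix.of_apply]
    rw [Finset.sum_mul]
    exact Finset.sum_congr rfl fun a _ => by ring
  have hdet : (A.mat w).det = 0 := Matrix.exists_vecMul_eq_zero_iff.1 ⟨u, hu, hM1⟩
  have hadj : (A.mat w).adjugate ≠ 0 := by
    intro h0
    have hw' : (fun a => algebraMap K (AlgebraicClosure K) (w a)) ≠ 0 := by
      intro h
      apply hw
      funext a
      have h3 := congrFun h a
      simp only [Pi.zero_apply] at h3
      exact (map_eq_zero _).1 h3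
    apply hA _ hw'
    have h3 : (A.map (algebraMap K (AlgebraicClosure K))).mat
        (fun a => algebraMap K (AlgebraicClosure K) (w a)) =
        (algebraMap K (AlgebraicClosure K)).mapMatrix (A.mat w) := by
      ext b c
      simp [Ten.mat, Ten.map]
    rw [h3, ← RingHom.map_adjugate, h0, map_zero]
  obtain ⟨-, -, h3⟩ := h1 K (A.mat w) hdet hadj
  obtain ⟨c, hc, hcc⟩ := h3 u v hu hv hM1 hM2
  -- the values of the forms
  have h4 : ∀ j : Fin 4 × Fin 4, eval w (A.matP.adjugate j.1 j.2) = (A.mat w).adjugate j.1 j.2 := by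
    intro j
    have h5 : (eval w).mapMatrix A.matP = A.mat w := by
      ext b c
      simp [Ten.mat, Ten.matP]
    have h6 := congrFun (congrFun (RingHom.map_adjugate (eval w) A.matP) j.1) j.2
    rw [h5] at h6
    rw [← h6]
    rfl
  have h5 : C + (3 : ℕ) * logHeight w ≤
      logHeight (fun j : Fin 4 × Fin 4 => (A.matP.adjugate j.1 j.2).eval w) := by
    refine hC (fun j : Fin 4 × Fin 4 => A.matP.adjugate j.1 j.2) (x := w) ?_
    intro k
    have h := congrArg (eval w) (hid k)
    simp only [map_sum, map_mul, map_pow, eval_X] at h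
    exact h
  have h6 : (fun j : Fin 4 × Fin 4 => (A.matP.adjugate j.1 j.2).eval w) =
      c • (fun p : Fin 4 × Fin 4 => v p.1 * u p.2) := by
    funext j
    rw [h4, hcc]
    simp only [Pi.smul_apply, smul_eq_mul]
    ring
  rw [h6, logHeight_smul_eq_logHeight _ hc, logHeight_fun_mul_eq hv hu] at h5
  push_cast at h5
  linarith

end Pool.Agent.Q195.SA.DH
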